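import Mathlib
import Pool.Agent.MCO.Defs
import Pool.Agent.MCO.Main

/-!
# Face numbers of marked chain-order polytopes

For every finite marked poset `(P, A, λ)` and all admissible decompositions `(U₁, U₂)`, `(V₁, V₂)`
with `U₁ ⊆ V₁` one has `f_i(CO_{V₁,V₂}(λ)) ≤ f_i(CO_{U₁,U₂}(λ))` for all `i`.
The definitions `faceCount`, `mu`, `IsAdmissible`, `CO` are in `Pool.Agent.MCO.Defs`.
-/

namespace Pool.Agent.Results.MP_011ee1_co.FaceNumbers

open Pool.Agent.MCO

/-- Monotonicity of the face numbers of marked chain-order polytopes. -/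
theorem result {P : Type*} [PartialOrder P] [Finite P] (A : Set P)
    (hA : ∀ p : P, IsMin p ∨ IsMax p → p ∈ A) (lam : A → ℝ) (hlam : ∀ a, 0 ≤ lam a)
    (U₁ U₂ V₁ V₂ : Set P) (hU : IsAdmissible A U₁ U₂) (hV : IsAdmissible A V₁ V₂)
    (hUV : U₁ ⊆ V₁) (i : ℕ) :
    faceCount (CO A lam V₁ V₂) i ≤ faceCount (CO A lam U₁ U₂) i :=
  faceCount_mono A hA lam hlam U₁ U₂ V₁ V₂ hU hV hUV i

end Pool.Agent.Results.MP_011ee1_co.FaceNumbers
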